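import Pool.Agent.H29.AB.MixF
import Pool.Agent.H85.FD.S3

/-!
# Project AB, part (D): interfaces

`F` totally real, contained in `ℚ(ζ_f)`; `K` a finite extension of `F`.
* `RealAb f F`;
* `IsRelFam w ψ`: the family of the reductions of the `F`-embeddings of `K` over `w : 𝓞 F → Ω`;
* `SymF F K p`: for all solutions (integral, coprime at `p`) and all families over homomorphisms of `𝓞 F` the
  residues `-ψ b / ψ a` at the good indices are stable under `S_3`;
* `EqAt`, `CubAt`, `good`: as in `Results.MP_ef6a16_nt.FirstCaseAbelian`.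
-/

namespace H29AB

open Polynomial NumberField H9FC H9AB IsDedekindDomain

/-- `F` is totally real and embeds into the field of the `f`-th roots of unity -/
def RealAb (f : ℕ) (F : Type*) [Field F] [NumberField F] : Prop :=
  NumberField.IsTotallyReal F ∧ Nonempty (F →+* CyclotomicField f ℚ)

/-- the reductions of the `F`-embeddings of `K` over `w` -/
def IsRelFam {F K : Type*} [Field F] [NumberField F] [Field K] [NumberField K] [Algebra F K]
    {Ω : Type*} [Field Ω] (w : 𝓞 F →+* Ω) (ψ : Fin (Module.finrank F K) → (𝓞 K →+* Ω)) : Prop :=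
  (∀ i, (ψ i).comp (algebraMap (𝓞 F) (𝓞 K)) = w) ∧
    ∀ x y : 𝓞 K, (nfR F K x y).map w = ∏ i, (C (ψ i x) + X * C (ψ i y))

/-- the symmetry of the residues at the good indices -/
def SymF (F K : Type*) [Field F] [NumberField F] [Field K] [NumberField K] [Algebra F K]
    (p : ℕ) : Prop :=
  ∀ a b c : 𝓞 K, FSol K p a b c → CopAt K p a b c →
    ∀ (Ω : Type) [Field Ω] [IsAlgClosed Ω] [CharP Ω p] (w : 𝓞 F →+* Ω)
      (ψ : Fin (Module.finrank F K) → (𝓞 K →+* Ω)), IsRelFam w ψ →
      H85FD.S3St (fun i : {i // ψ i a ≠ 0 ∧ ψ i b ≠ 0 ∧ ψ i c ≠ 0} => -(ψ i.1 b) / ψ i.1 a)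

/-- the prime `v` divides none of `a, b, c` (up to a common factor) -/
def EqAt {K : Type*} [Field K] [NumberField K] (v : HeightOneSpectrum (𝓞 K)) (a b c : K) : Prop :=
  v.valuation K a = v.valuation K b ∧ v.valuation K b = v.valuation K c

/-- `(a : b : c) = (1 : ω : ω ^ 2)` modulo `v` -/
def CubAt {K : Type*} [Field K] [NumberField K] (v : HeightOneSpectrum (𝓞 K)) (a b c : K) : Prop :=
  EqAt v a b c ∧ v.valuation K (a ^ 2 + a * b + b ^ 2) < v.valuation K (a ^ 2)

/-- the sum of the local degrees over `F` of the good primes above `u` -/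
noncomputable def good {F K : Type*} [Field F] [NumberField F] [Field K] [NumberField K]
    [Algebra F K] (u : HeightOneSpectrum (𝓞 F)) (a b c : K) : ℕ :=
  ∑ᶠ v ∈ {v : HeightOneSpectrum (𝓞 K) | v.asIdeal.LiesOver u.asIdeal ∧ EqAt v a b c},
    v.asIdeal.ramificationIdx (𝓞 F) * v.asIdeal.inertiaDeg (𝓞 F)

end H29AB
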