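import Pool.Agent.H2.N3.Pnt
import Pool.Agent.H71.FD.Dens

/-!
# Project AB: the primes of a residue class, outside a set of density zero
-/

set_option autoImplicit false

namespace Pool.Agent.H29.AB

open Finset Filter Topology Pool.Agent.H71.FD

/-- the mass of the primes of a residue class -/
theorem ap_th (q a : ℕ) (hq : 1 ≤ q) (ha : a.Coprime q) (ε : ℝ) (hε : 0 < ε) :
    ∀ᶠ x : ℕ in atTop, |th (fun p => p ≡ a [MOD q]) x - x / (q.totient : ℝ)| ≤ ε * x := by
  classical
  filter_upwards [Pool.Agent.H2.N3.class_win q a hq ha ε hε] with x hx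
  have h := hx 0 x (Nat.zero_le x) le_rfl
  have e : th (fun p => p ≡ a [MOD q]) x =
      ∑ p ∈ (Ioc 0 x).filter (fun p => p.Prime ∧ p ≡ a [MOD q]), Real.log p := by
    unfold th
    refine Finset.sum_congr ?_ fun _ _ => rfl
    ext p
    simp only [mem_filter, mem_Icc, mem_Ioc]
    constructor <;> rintro ⟨⟨h1, h2⟩, h3⟩ <;> exact ⟨⟨by omega, h2⟩, h3⟩
  rw [e]
  simpa using h

/-- the number of primes of a residue class -/
theorem ap_lower (q a : ℕ) (hq : 1 ≤ q) (ha : a.Coprime q) (ε : ℝ) (hε : 0 < ε) :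
    ∀ᶠ x : ℕ in atTop,
      (1 / (q.totient : ℝ) - ε) * (x / Real.log x) ≤ cn (fun p => p ≡ a [MOD q]) x := by
  refine cn_of_th (1 / (q.totient : ℝ) - ε) ?_
  filter_upwards [ap_th q a hq ha ε hε] with x hx
  rw [abs_le] at hx
  have e : (x : ℝ) / (q.totient : ℝ) = 1 / (q.totient : ℝ) * x := by ring
  rw [e] at hx
  linarith [hx.1]

/-- the primes of a finite set of residue classes, outside a set of density zero -/
theorem ap_lower_set (q : ℕ) (hq : 1 ≤ q) (A : Finset ℕ) (hA : ∀ a ∈ A, a < q ∧ a.Coprime q)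
    (ε : ℝ) (hε : 0 < ε) :
    ∀ᶠ x : ℕ in atTop,
      ((A.card : ℝ) / (q.totient : ℝ) - ε) * (x / Real.log x) ≤ cn (fun p => p % q ∈ A) x := by
  refine cn_of_th ((A.card : ℝ) / (q.totient : ℝ) - ε) ?_
  have hε' : 0 < ε / (A.card + 1) := by positivity
  have hall : ∀ᶠ x : ℕ in atTop, ∀ a ∈ A,
      |th (fun p => p ≡ a [MOD q]) x - x / (q.totient : ℝ)| ≤ ε / (A.card + 1) * x := by
    rw [eventually_all_finset]
    intro a ha
    exact ap_th q a hq (hA a ha).2 _ hε'
  filter_upwards [hall] with x hx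
  classical
  have hsum : th (fun p => p % q ∈ A) x = ∑ a ∈ A, th (fun p => p ≡ a [MOD q]) x := by
    unfold th
    rw [← Finset.sum_biUnion]
    · refine Finset.sum_congr ?_ fun _ _ => rfl
      ext p
      simp only [mem_biUnion, mem_filter]
      constructor
      · rintro ⟨h1, h2, h3⟩
        exact ⟨p % q, h3, h1, h2, (Nat.mod_modEq p q).symm⟩
      · rintro ⟨a, ha, h1, h2, h3⟩
        refine ⟨h1, h2, ?_⟩
        have : p % q = a := by
          rw [h3, Nat.mod_eq_of_lt (hA a ha).1]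
        rw [this]
        exact ha
    · intro a ha b hb hab
      rw [Function.onFun, Finset.disjoint_left]
      intro p hp hp'
      simp only [mem_filter] at hp hp'
      apply hab
      have h1 : p % q = a := by rw [hp.2.2, Nat.mod_eq_of_lt (hA a ha).1]
      have h2 : p % q = b := by rw [hp'.2.2, Nat.mod_eq_of_lt (hA b hb).1]
      rw [← h1, ← h2]
  rw [hsum]
  have h1 : ∑ _a ∈ A, ((x : ℝ) / (q.totient : ℝ) - ε / (A.card + 1) * x) ≤
      ∑ a ∈ A, th (fun p => p ≡ a [MOD q]) x := by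
    refine Finset.sum_le_sum fun a ha => ?_
    have := (abs_le.1 (hx a ha)).1
    linarith
  rw [Finset.sum_const, nsmul_eq_mul] at h1
  refine le_trans ?_ h1
  have h2 : (A.card : ℝ) * (ε / (A.card + 1) * x) ≤ ε * x := by
    have hc : (A.card : ℝ) * (ε / (A.card + 1)) ≤ ε := by
      rw [mul_div_assoc', div_le_iff₀ (by positivity)]
      nlinarith
    calc (A.card : ℝ) * (ε / (A.card + 1) * x) = (A.card : ℝ) * (ε / (A.card + 1)) * x := by ring
      _ ≤ ε * x := mul_le_mul_of_nonneg_right hc (Nat.cast_nonneg x)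
  have e : (A.card : ℝ) * (x / (q.totient : ℝ) - ε / (A.card + 1) * x) =
      (A.card : ℝ) / (q.totient : ℝ) * x - (A.card : ℝ) * (ε / (A.card + 1) * x) := by ring
  rw [e]
  linarith

/-- the same outside a set of density zero -/
theorem ap_sdiff (q : ℕ) (hq : 1 ≤ q) (A : Finset ℕ) (hA : ∀ a ∈ A, a < q ∧ a.Coprime q)
    (B : ℕ → Prop) (hB : Null B) (ε : ℝ) (hε : 0 < ε) :
    ∀ᶠ x : ℕ in atTop,
      ((A.card : ℝ) / (q.totient : ℝ) - ε) * (x / Real.log x) ≤
        cn (fun p => p % q ∈ A ∧ ¬ B p) x := by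
  filter_upwards [cn_sdiff ((A.card : ℝ) / (q.totient : ℝ) - ε / 2)
    (ap_lower_set q hq A hA (ε / 2) (by linarith)) hB (ε / 2) (by linarith)] with x hx
  refine le_trans (le_of_eq ?_) hx
  ring

end Pool.Agent.H29.AB
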