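import Pool.Agent.H24.AB.Cubic
import Pool.Agent.H24.AB.ExFam
import Pool.Agent.H52.AB.Big
import Pool.Agent.H73.AB.Wief
import Pool.Agent.H29.AB.Ap
import Pool.Agent.H71.FD.Form

/-!
# Project AB, module Asm (M9): the consequences of the symmetry over the places of a real abelian field
-/

open Polynomial NumberField H9FC H9AB IsDedekindDomain H24AB H52AB H73AB

namespace H29AB

universe u v

/-- the first case: some prime above `p` divides one of `a, b, c` -/
def First (K : Type*) [Field K] [NumberField K] (p : ℕ) : Prop :=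
  ∀ a b c : K, a ≠ 0 → b ≠ 0 → c ≠ 0 → a ^ p + b ^ p + c ^ p = 0 →
    ∃ v : HeightOneSpectrum (𝓞 K), (p : 𝓞 K) ∈ v.asIdeal ∧ ¬ EqAt v a b c

/-- every prime above `p` divides one of `a, b, c` -/
def AllDiv (K : Type*) [Field K] [NumberField K] (p : ℕ) : Prop :=
  ∀ a b c : K, a ≠ 0 → b ≠ 0 → c ≠ 0 → a ^ p + b ^ p + c ^ p = 0 →
    ∀ v : HeightOneSpectrum (𝓞 K), (p : 𝓞 K) ∈ v.asIdeal → ¬ EqAt v a b c

section basic

variable {F K : Type*} [Field F] [NumberField F] [Field K] [NumberField K] [Algebra F K]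

omit [NumberField F] [NumberField K] in
theorem mem_of_over {p : ℕ} {u : Ideal (𝓞 F)} {v : Ideal (𝓞 K)} (h : v.LiesOver u)
    (hu : (p : 𝓞 F) ∈ u) : (p : 𝓞 K) ∈ v := by
  rw [h.over, Ideal.under_def, Ideal.mem_comap, map_natCast] at hu
  exact hu

/-- a prime of `F` above `p` -/
theorem exists_u (F : Type*) [Field F] [NumberField F] (p : ℕ) (hp : p.Prime) :
    ∃ u : HeightOneSpectrum (𝓞 F), (p : 𝓞 F) ∈ u.asIdeal := by
  have hpr : (Ideal.span {(p : ℤ)}).IsPrime :=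
    (Ideal.span_singleton_prime (by exact_mod_cast hp.ne_zero)).2 (Nat.prime_iff_prime_int.1 hp)
  obtain ⟨P, hP, hPl⟩ := (Ideal.span {(p : ℤ)}).nonempty_primesOver (S := 𝓞 F)
  have hpM : (p : 𝓞 F) ∈ P := by
    have h1 : (p : ℤ) ∈ P.under ℤ := by
      rw [← hPl.over]
      exact Ideal.mem_span_singleton_self _
    rw [Ideal.under_def, Ideal.mem_comap] at h1
    simpa using h1
  refine ⟨⟨P, hP, ?_⟩, hpM⟩
  rintro rfl
  rw [Ideal.mem_bot, Nat.cast_eq_zero] at hpM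
  exact hp.ne_zero hpM

/-- in the first case at `u` the sum of the local degrees is the degree -/
theorem good_first {p : ℕ} [Fact p.Prime] (a b c : K) (ha : a ≠ 0) (hb : b ≠ 0)
    (hc : c ≠ 0) (h : a ^ p + b ^ p + c ^ p = 0) (u : HeightOneSpectrum (𝓞 F))
    (hu : (p : 𝓞 F) ∈ u.asIdeal)
    (hg : ∀ v : HeightOneSpectrum (𝓞 K), v.asIdeal.LiesOver u.asIdeal → EqAt v a b c) :
    good u a b c = Module.finrank F K := by
  obtain ⟨l, a', b', c', w, ψ, -, -, -, -, -, -, -, hψ, hv, hi, hcard⟩ :=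
    exists_fam (p := p) (AlgebraicClosure (ZMod p)) a b c ha hb hc h u hu
  rw [← hcard]
  have hall : ∀ i, ψ i a' ≠ 0 ∧ ψ i b' ≠ 0 ∧ ψ i c' ≠ 0 := by
    intro i
    obtain ⟨v, h1, h2⟩ := hi i
    have h3 := ((hv v h2).1).1 (hg v h2)
    rw [h1] at h3
    exact h3
  rw [Nat.card_congr (Equiv.subtypeUnivEquiv hall), Nat.card_eq_fintype_card, Fintype.card_fin]

/-- the sum of the local degrees of the good primes is at most the degree -/
theorem good_le {p : ℕ} [Fact p.Prime] (a b c : K) (ha : a ≠ 0) (hb : b ≠ 0)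
    (hc : c ≠ 0) (h : a ^ p + b ^ p + c ^ p = 0) (u : HeightOneSpectrum (𝓞 F))
    (hu : (p : 𝓞 F) ∈ u.asIdeal) : good u a b c ≤ Module.finrank F K := by
  obtain ⟨l, a', b', c', w, ψ, -, -, -, -, -, -, -, hψ, hv, hi, hcard⟩ :=
    exists_fam (p := p) (AlgebraicClosure (ZMod p)) a b c ha hb hc h u hu
  rw [← hcard]
  have h1 := Finite.card_subtype_le (fun i => ψ i a' ≠ 0 ∧ ψ i b' ≠ 0 ∧ ψ i c' ≠ 0)
  rwa [Nat.card_eq_fintype_card (α := Fin _), Fintype.card_fin] at h1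

/-- the local degrees are at most the degree -/
theorem ef_le {p : ℕ} [Fact p.Prime] (a b c : K) (ha : a ≠ 0) (hb : b ≠ 0)
    (hc : c ≠ 0) (h : a ^ p + b ^ p + c ^ p = 0) (u : HeightOneSpectrum (𝓞 F))
    (hu : (p : 𝓞 F) ∈ u.asIdeal) (v : HeightOneSpectrum (𝓞 K)) (hv : v.asIdeal.LiesOver u.asIdeal) :
    v.asIdeal.ramificationIdx (𝓞 F) * v.asIdeal.inertiaDeg (𝓞 F) ≤ Module.finrank F K := by
  obtain ⟨l, a', b', c', w, ψ, -, -, -, -, -, -, -, hψ, hvv, hi, hcard⟩ :=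
    exists_fam (p := p) (AlgebraicClosure (ZMod p)) a b c ha hb hc h u hu
  rw [← (hvv v hv).2]
  have h1 := Finite.card_subtype_le (fun i => RingHom.ker (ψ i) = v.asIdeal)
  rwa [Nat.card_eq_fintype_card (α := Fin _), Fintype.card_fin] at h1

/-- the degree of a subfield of the cyclotomic field -/
theorem finrank_le_totient (f : ℕ) (hf : 0 < f) (F : Type*) [Field F] [NumberField F]
    (h : Nonempty (F →+* CyclotomicField f ℚ)) : Module.finrank ℚ F ≤ f.totient := by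
  have : NeZero f := ⟨hf.ne'⟩
  have : NeZero ((f : ℕ) : ℚ) := ⟨Nat.cast_ne_zero.2 hf.ne'⟩
  obtain ⟨ι⟩ := h
  have hcyc : IsCyclotomicExtension {f} ℚ (CyclotomicField f ℚ) :=
    CyclotomicField.isCyclotomicExtension f ℚ
  have hnf : NumberField (CyclotomicField f ℚ) :=
    IsCyclotomicExtension.numberField {f} ℚ _
  have h1 : Module.finrank ℚ (CyclotomicField f ℚ) = f.totient :=
    IsCyclotomicExtension.finrank (n := f) (CyclotomicField f ℚ)
      (Polynomial.cyclotomic.irreducible_rat hf)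
  rw [← h1]
  let e : F →ₐ[ℚ] CyclotomicField f ℚ := ι.toRatAlgHom
  exact LinearMap.finrank_le_finrank_of_injective (f := e.toLinearMap) e.toRingHom.injective

theorem bound_of {f n p : ℕ} (hf : 0 < f) (hF : RealAb f F) (hn : Module.finrank F K = n)
    (hp : 2 * (f.totient * n) + 5 ≤ p) : 2 * Module.finrank ℚ K + 3 ≤ p := by
  have h1 := finrank_le_totient f hf F hF.2
  have h2 : Module.finrank ℚ F * Module.finrank F K = Module.finrank ℚ K := by
    have : IsScalarTower ℚ F K := IsScalarTower.of_algebraMap_eq' (Subsingleton.elim _ _)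
    exact Module.finrank_mul_finrank ℚ F K
  rw [← h2, hn]
  have h3 := Nat.mul_le_mul_right n h1
  omega

end basic

section first

variable {F K : Type*} [Field F] [NumberField F] [Field K] [NumberField K] [Algebra F K]

/-- (B), for degree one -/
theorem allDiv_of_one {p : ℕ} [Fact p.Prime] (hS : SymF F K p)
    (hp : 2 * Module.finrank ℚ K + 3 ≤ p) (h1 : Module.finrank F K = 1) : AllDiv K p := by
  intro a b c ha hb hc h v hv he
  have hpr := v.isPrime
  have hu0 : (v.asIdeal.comap (algebraMap (𝓞 F) (𝓞 K))).IsPrime := hpr.comap _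
  have hpu : (p : 𝓞 F) ∈ v.asIdeal.comap (algebraMap (𝓞 F) (𝓞 K)) := by
    rw [Ideal.mem_comap, map_natCast]
    exact hv
  let u : HeightOneSpectrum (𝓞 F) := ⟨v.asIdeal.comap (algebraMap (𝓞 F) (𝓞 K)), hu0, by
    intro h0
    rw [h0, Ideal.mem_bot, Nat.cast_eq_zero] at hpu
    exact (Fact.out : p.Prime).ne_zero hpu⟩
  have hvu : v.asIdeal.LiesOver u.asIdeal := ⟨rfl⟩
  have h2 := ef_le (F := F) a b c ha hb hc h u hpu v hvu
  have h3 := good_le (F := F) a b c ha hb hc h u hpu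
  have h5 := Ideal.ramificationIdx_pos v.asIdeal (𝓞 F)
  have h6 := Ideal.inertiaDeg_pos v.asIdeal (𝓞 F)
  have h7 := Nat.mul_pos h5 h6
  obtain ⟨-, h4, -⟩ := sym_big hS hp a b c ha hb hc h u hpu v hvu he (by omega)
  have h8 : v.asIdeal.inertiaDeg (𝓞 F) ≤
      v.asIdeal.ramificationIdx (𝓞 F) * v.asIdeal.inertiaDeg (𝓞 F) := Nat.le_mul_of_pos_left _ h5
  have h9 : v.asIdeal.inertiaDeg (𝓞 F) = 1 := by omega
  rw [h9] at h4
  exact absurd h4 (by decide)

/-- (D) -/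
theorem first_odd {p : ℕ} [Fact p.Prime] (hS : SymF F K p)
    (hp : 2 * Module.finrank ℚ K + 3 ≤ p) (hodd : Odd (Module.finrank F K))
    (hW : ¬ p ^ 2 ∣ 2 ^ (p - 1) - 1) : First K p := by
  intro a b c ha hb hc h
  by_contra hcon
  push Not at hcon
  obtain ⟨u, hu⟩ := exists_u F p Fact.out
  have hg : ∀ v : HeightOneSpectrum (𝓞 K), v.asIdeal.LiesOver u.asIdeal → EqAt v a b c :=
    fun v hv => hcon v (mem_of_over hv hu)
  refine hW (sym_wief hS hp a b c ha hb hc h u hu ?_)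
  rw [good_first a b c ha hb hc h u hu hg]
  exact hodd

/-- (E) -/
theorem first_three {p : ℕ} [Fact p.Prime] (hS : SymF F K p)
    (hp : 2 * Module.finrank ℚ K + 3 ≤ p) (h3 : ¬ 3 ∣ Module.finrank F K) (hp3 : p % 3 = 2)
    (u : HeightOneSpectrum (𝓞 F)) (hu : (p : 𝓞 F) ∈ u.asIdeal)
    (hcard : Nat.card (𝓞 F ⧸ u.asIdeal) = p)
    (hdeg : ∀ v : HeightOneSpectrum (𝓞 K), v.asIdeal.LiesOver u.asIdeal →
      v.asIdeal.inertiaDeg (𝓞 F) = 1) : First K p := by
  intro a b c ha hb hc h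
  by_contra hcon
  push Not at hcon
  have hg : ∀ v : HeightOneSpectrum (𝓞 K), v.asIdeal.LiesOver u.asIdeal → EqAt v a b c :=
    fun v hv => hcon v (mem_of_over hv hu)
  obtain ⟨v, hv, -, h4, -⟩ := sym_cubic hS hp a b c ha hb hc h u hu (by
    rw [good_first a b c ha hb hc h u hu hg]
    exact h3)
  have h5 := h4 (by rw [hcard]; exact hp3)
  rw [hdeg v hv] at h5
  exact absurd h5 (by decide)

/-- (F) -/
theorem first_long {p : ℕ} [Fact p.Prime] (hS : SymF F K p)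
    (hp : 2 * Module.finrank ℚ K + 3 ≤ p) (u : HeightOneSpectrum (𝓞 F))
    (hu : (p : 𝓞 F) ∈ u.asIdeal) (v : HeightOneSpectrum (𝓞 K)) (hv : v.asIdeal.LiesOver u.asIdeal)
    (hbig : Module.finrank F K < 2 * v.asIdeal.inertiaDeg (𝓞 F))
    (hodd : Odd (v.asIdeal.inertiaDeg (𝓞 F)) ∨ Nat.card (𝓞 F ⧸ u.asIdeal) % 3 = 1) :
    First K p := by
  intro a b c ha hb hc h
  refine ⟨v, mem_of_over hv hu, fun he => ?_⟩
  have h0 := v.isPrime
  have h1 := Ideal.ramificationIdx_pos v.asIdeal (𝓞 F)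
  have h2 : v.asIdeal.inertiaDeg (𝓞 F) ≤
      v.asIdeal.ramificationIdx (𝓞 F) * v.asIdeal.inertiaDeg (𝓞 F) := Nat.le_mul_of_pos_left _ h1
  have h3 := good_le (F := F) a b c ha hb hc h u hu
  obtain ⟨h4, h5, -⟩ := sym_big hS hp a b c ha hb hc h u hu v hv he (by omega)
  rcases hodd with h6 | h6
  · exact (Nat.not_even_iff_odd.2 h6) h5
  · omega

end first

end H29AB
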