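import Pool.Agent.H77.AB.MixMain

/-!
# Project AB, module MixF: the twisted Kummer relations for all solutions, relative version

`F ⊆ L = ℚ(ζ_f)` and `K` any finite extension of `F` (no relation between `K` and `L` is needed).
As `H77AB.twisted_kummer_mixed`, with the norm form of `K` over `F` instead of `K` over `L`: `ψ g i`,
`i < [K:F]`, is the family of the reductions of the `F`-embeddings of `K` over the place
`w₀ ∘ σ_g` of `L`, restricted to `F`.
-/

namespace H29AB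

open Polynomial NumberField H9FC H45KC H9AB H77AB
open scoped Pointwise

universe t u v w

section elem

variable (f p : ℕ) [NeZero f] [NeZero (f * p)] (F : Type t) [Field F] [NumberField F]
    (L : Type u) [Field L] [NumberField L]
    [IsCyclotomicExtension {f} ℚ L] (M : Type w) [Field M] [NumberField M]
    [IsCyclotomicExtension {f * p} ℚ M] [Algebra L M] [Algebra F L] [Algebra F M]
    [IsScalarTower F L M]

omit [NeZero f] [NeZero (f * p)] [IsCyclotomicExtension {f} ℚ L] [NumberField M] [NumberField F]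
  [NumberField L] [IsCyclotomicExtension {f * p} ℚ M] in
theorem tower_O (x : 𝓞 F) :
    algebraMap (𝓞 F) (𝓞 M) x = algebraMap (𝓞 L) (𝓞 M) (algebraMap (𝓞 F) (𝓞 L) x) := by
  apply RingOfIntegers.coe_injective
  show algebraMap F M (x : F) = algebraMap L M (algebraMap F L (x : F))
  exact IsScalarTower.algebraMap_apply F L M (x : F)

include L in
/-- the element attached to an arbitrary solution -/
theorem exists_mixF (K : Type v) [Field K] [NumberField K] [Algebra F K] [hp : Fact p.Prime]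
    (hp2 : p ≠ 2) (hpf : ¬ p ∣ f) (hd : Module.finrank F K < p) (a b c : 𝓞 K)
    (h : FSol K p a b c) {ζ : 𝓞 M} (hζ : IsPrimitiveRoot ζ (f * p)) :
    ∃ (A y : 𝓞 M), A * (nfR F K a b).eval₂ (algebraMap (𝓞 F) (𝓞 M)) ((ζ ^ f) ^ (p - 1))
        = y ^ p * (nfR F K a b).eval₂ (algebraMap (𝓞 F) (𝓞 M)) (ζ ^ f) ∧
      (∀ Q : Ideal (𝓞 M), Q.IsPrime → (p : 𝓞 M) ∈ Q → A ∉ Q ∧ y ∉ Q) ∧
      ∃ J : Ideal (𝓞 M), J ^ p = Ideal.span {A} := by
  have hpp : p.Prime := hp.out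
  obtain ⟨s, η, hη, hs, hsf, hsL⟩ := exists_inv f p L M hpf hζ
  have hζp : IsPrimitiveRoot (ζ ^ f) p := hζ.pow (NeZero.pos _) rfl
  have hsF : s • ((nfR F K a b).eval₂ (algebraMap (𝓞 F) (𝓞 M)) (ζ ^ f))
      = (nfR F K a b).eval₂ (algebraMap (𝓞 F) (𝓞 M)) ((ζ ^ f) ^ (p - 1)) := by
    have h1 := Polynomial.hom_eval₂ (nfR F K a b) (algebraMap (𝓞 F) (𝓞 M)) (H71AB.act s) (ζ ^ f)
    rw [H71AB.act_apply, H71AB.act_apply, hsf] at h1
    rw [h1]
    congr 1
    ext1 x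
    rw [RingHom.comp_apply, H71AB.act_apply, tower_O F L M x]
    exact hsL _
  have hord : ∀ Q : Ideal (𝓞 M), Q.IsPrime → (p : 𝓞 M) ∈ Q →
      ordI Q (Ideal.span {(nfR F K a b).eval₂ (algebraMap (𝓞 F) (𝓞 M)) (ζ ^ f)}) =
      ordI Q (Ideal.span {(nfR F K a b).eval₂ (algebraMap (𝓞 F) (𝓞 M)) ((ζ ^ f) ^ (p - 1))}) := by
    intro Q hQ hpQ
    rw [← hsF]
    exact (ordI_smul_eq (f * p) M hζ p s η hη hs Q hQ hpQ _).symm
  obtain ⟨h1, h2, I, hI⟩ := pow_ideal_gen F K p hp2 hd a b c h M hζp hord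
  obtain ⟨A, y, hAy, -, -, hAQ, hJ⟩ := unr p hpp.one_le (Nat.cast_ne_zero.2 hpp.ne_zero) h1 h2 I hI hord
  exact ⟨A, y, hAy, hAQ, hJ⟩

end elem

/-- **Twisted Kummer relations for all solutions, relative version** -/
theorem twisted_kummer_F (f p : ℕ) [NeZero f] [NeZero (f * p)] [hp : Fact p.Prime] (hp2 : p ≠ 2)
    (hpf : ¬ p ∣ f) (L : Type u) [Field L] [NumberField L] [IsCyclotomicExtension {f} ℚ L]
    (F : Type t) [Field F] [NumberField F] [Algebra F L]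
    (K : Type v) [Field K] [NumberField K] [Algebra F K]
    (a b c : 𝓞 K) (h : FSol K p a b c) (hcp : CopAt K p a b c)
    (Ω : Type w) [Field Ω] [IsAlgClosed Ω] [CharP Ω p] (w₀ : 𝓞 L →+* Ω)
    (ψ : (ZMod f)ˣ → Fin (Module.finrank F K) → (𝓞 K →+* Ω))
    (hψ : ∀ g, ∀ x y : 𝓞 K, (nfR F K x y).map ((w₀.comp (actL f L g)).comp
      (algebraMap (𝓞 F) (𝓞 L))) = ∏ i, (C (ψ g i x) + X * C (ψ g i y)))
    (c₀ : ℕ) (hc₀ : 1 ≤ c₀) (hc₀' : c₀ < f * p) (j : ℕ) (hj : Odd j) (hj3 : 3 ≤ j)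
    (hj' : j + Module.finrank F K + 2 ≤ p) (χ : (ZMod f)ˣ →* Ωˣ) :
    H99AB.beta Ω f p c₀ j χ = 0 ∨
      ∑ g : (ZMod f)ˣ, (χ g : Ω) *
        ∑ i ∈ GG (ψ g) a b c, H69FD.LL (j - 1) (-(ψ g i b) / ψ g i a) = 0 := by
  classical
  have hpp : p.Prime := hp.out
  have hfp : NeZero (((f * p : ℕ) : ℕ) : ℚ) := ⟨Nat.cast_ne_zero.2 (NeZero.ne (f * p))⟩
  have hcyc : IsCyclotomicExtension {f * p} ℚ (CyclotomicField (f * p) ℚ) :=
    CyclotomicField.isCyclotomicExtension (f * p) ℚ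
  obtain ⟨φ⟩ := exists_emb f p L (CyclotomicField (f * p) ℚ)
  let _ : Algebra L (CyclotomicField (f * p) ℚ) := φ.toRingHom.toAlgebra
  let _ : Algebra F (CyclotomicField (f * p) ℚ) :=
    ((algebraMap L (CyclotomicField (f * p) ℚ)).comp (algebraMap F L)).toAlgebra
  have hT : IsScalarTower F L (CyclotomicField (f * p) ℚ) := IsScalarTower.of_algebraMap_eq' rfl
  obtain ⟨e, he⟩ := exists_lift_hom L (CyclotomicField (f * p) ℚ) Ω w₀
  obtain ⟨ζ, hζ⟩ : ∃ ζ : 𝓞 (CyclotomicField (f * p) ℚ), IsPrimitiveRoot ζ (f * p) :=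
    ⟨_, (IsCyclotomicExtension.zeta_spec (f * p) ℚ (CyclotomicField (f * p) ℚ)).toInteger_isPrimitiveRoot⟩
  obtain ⟨A, y, hAy, hAQ, J, hJ⟩ := exists_mixF f p F L (CyclotomicField (f * p) ℚ) K hp2 hpf
    (by omega) a b c h hζ
  have hsum : ∀ g i, ψ g i a + ψ g i b + ψ g i c = 0 := fun g i => fsol_hom h (ψ g i)
  have hac : ∀ g i, ¬ (ψ g i a = 0 ∧ ψ g i c = 0) := fun g i h0 =>
    (cop_hom h hcp (ψ g i)).2.2 ⟨h0.2, h0.1⟩
  have hab : ∀ g i, ψ g i c ≠ 0 → ψ g i a + ψ g i b ≠ 0 := by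
    intro g i hc h0
    have h1 := hsum g i
    rw [h0, zero_add] at h1
    exact hc h1
  have hf0 : (f : Ω) ≠ 0 := by
    intro h0
    exact hpf ((CharP.cast_eq_zero_iff Ω p f).1 h0)
  have h20 : (2 : Ω) ≠ 0 := by
    intro h0
    have h1 : ((2 : ℕ) : Ω) = 0 := by exact_mod_cast h0
    rw [CharP.cast_eq_zero_iff Ω p] at h1
    exact hp2 ((Nat.prime_dvd_prime_iff_eq hpp Nat.prime_two).1 h1)
  have hιa : ∀ r : 𝓞 F, algebraMap (𝓞 F) (𝓞 (CyclotomicField (f * p) ℚ)) r ∈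
      Algebra.adjoin ℤ {ζ ^ p} := by
    intro r
    rw [tower_O F L (CyclotomicField (f * p) ℚ) r]
    exact mem_adjoin f p L (CyclotomicField (f * p) ℚ) hζ _
  have hval : ∀ σ, H71AB.Lg ζ (e.comp (H71AB.act σ)) j A =
      -(2 * (f : Ω) ^ j) * ∑ i ∈ GG (ψ (ZMod.unitsMap (dvd_mul_right f p)
        (IsCyclotomicExtension.Rat.galEquivZMod (f * p) (CyclotomicField (f * p) ℚ) σ))) a b c,
        H69FD.LL (j - 1) (-(ψ (ZMod.unitsMap (dvd_mul_right f p)
        (IsCyclotomicExtension.Rat.galEquivZMod (f * p) (CyclotomicField (f * p) ℚ) σ)) i b) /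
          ψ (ZMod.unitsMap (dvd_mul_right f p)
        (IsCyclotomicExtension.Rat.galEquivZMod (f * p) (CyclotomicField (f * p) ℚ) σ)) i a) := by
    intro σ
    set g : (ZMod f)ˣ := ZMod.unitsMap (dvd_mul_right f p)
        (IsCyclotomicExtension.Rat.galEquivZMod (f * p) (CyclotomicField (f * p) ℚ) σ) with hg
    have hhom : (e.comp (H71AB.act σ)).comp (algebraMap (𝓞 F) (𝓞 (CyclotomicField (f * p) ℚ))) =
        (w₀.comp (actL f L g)).comp (algebraMap (𝓞 F) (𝓞 L)) := by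
      rw [← he]
      ext x
      show e (H71AB.act σ (algebraMap (𝓞 F) (𝓞 (CyclotomicField (f * p) ℚ)) x)) = _
      rw [tower_O F L (CyclotomicField (f * p) ℚ) x, act_algebraMap f p L (CyclotomicField (f * p) ℚ)]
      rfl
    obtain ⟨u, hu, hfac⟩ := lin_fact (fun i => ψ g i a) (fun i => ψ g i b) (fun i => ψ g i c)
      (hsum g) (hac g)
    set H : Polynomial Ω := C u * ∏ i ∈ Finset.univ.filter (fun i => ¬ ψ g i c = 0),
      (C (ψ g i a) + X * C (ψ g i b)) with hH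
    have hne : ∀ i ∈ Finset.univ.filter (fun i => ¬ ψ g i c = 0),
        (C (ψ g i a) + X * C (ψ g i b) : Polynomial Ω).eval 1 ≠ 0 := by
      intro i hi
      rw [Finset.mem_filter] at hi
      simp only [eval_add, eval_C, eval_mul, eval_X, one_mul]
      exact hab g i hi.2
    have hHe : H.eval 1 ≠ 0 := by
      rw [hH, eval_mul, eval_C, eval_prod]
      exact mul_ne_zero hu (Finset.prod_ne_zero_iff.2 hne)
    have hμ : (Finset.univ.filter (fun i => ψ g i c = 0)).card ≤ Module.finrank F K := by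
      refine (Finset.card_le_univ _).trans ?_
      rw [Fintype.card_fin]
    have h1 := Lg_mix hpf rfl hζ hp2 (e.comp (H71AB.act σ))
      (algebraMap (𝓞 F) (𝓞 (CyclotomicField (f * p) ℚ))) hιa (nfR F K a b) A y
      (H71AB.ev_ne_zero _ A fun Q hQ hpQ => (hAQ Q hQ hpQ).1)
      (H71AB.ev_ne_zero _ y fun Q hQ hpQ => (hAQ Q hQ hpQ).2) hAy
      (Finset.univ.filter (fun i => ψ g i c = 0)).card H hHe (by rw [hhom, hψ g a b, hfac]) j hj hj3
      (by omega)
    have h2 : DL j H = - ∑ i ∈ GG (ψ g) a b c, H69FD.LL (j - 1) (-(ψ g i b) / ψ g i a) := by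
      rw [hH, DL_mul j (by omega) _ _ (by simpa using hu) (by
        rw [eval_prod]
        exact Finset.prod_ne_zero_iff.2 hne), DL_C j (by omega), zero_add,
        DL_lin_prod _ (fun i => ψ g i a) (fun i => ψ g i b) (by
          intro i hi
          rw [Finset.mem_filter] at hi
          exact hab g i hi.2) j (by omega), ← Finset.sum_neg_distrib]
      have h3 : (Finset.univ.filter (fun i => ¬ ψ g i c = 0)).filter
          (fun i => ψ g i a ≠ 0 ∧ ψ g i b ≠ 0) = GG (ψ g) a b c := by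
        ext i
        rw [Finset.mem_filter, Finset.mem_filter, mem_GG]
        constructor
        · rintro ⟨⟨-, h4⟩, h5, h6⟩
          exact ⟨h5, h6, h4⟩
        · rintro ⟨h5, h6, h4⟩
          exact ⟨⟨Finset.mem_univ _, h4⟩, h5, h6⟩
      rw [h3]
      refine Finset.sum_congr rfl fun i hi => ?_
      rw [mem_GG] at hi
      exact H87AB.DL_lin j (by omega) _ _ hi.1 (hab g i hi.2.2)
    rw [h1, h2]
    ring
  rcases kummer_gen f p (CyclotomicField (f * p) ℚ) hp2 hpf hζ A (fun Q hQ hpQ => (hAQ Q hQ hpQ).1)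
    J hJ e j (by omega) (by omega) (fun g => -(2 * (f : Ω) ^ j) *
      ∑ i ∈ GG (ψ g) a b c, H69FD.LL (j - 1) (-(ψ g i b) / ψ g i a)) hval c₀ hc₀ hc₀' χ with h1 | h1
  · exact Or.inl h1
  · right
    have h2 : ∑ g : (ZMod f)ˣ, (χ g : Ω) * (-(2 * (f : Ω) ^ j) *
        ∑ i ∈ GG (ψ g) a b c, H69FD.LL (j - 1) (-(ψ g i b) / ψ g i a)) =
        -(2 * (f : Ω) ^ j) * ∑ g : (ZMod f)ˣ, (χ g : Ω) *
        ∑ i ∈ GG (ψ g) a b c, H69FD.LL (j - 1) (-(ψ g i b) / ψ g i a) := by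
      rw [Finset.mul_sum]
      exact Finset.sum_congr rfl fun g _ => by ring
    rw [h2] at h1
    exact (mul_eq_zero.1 h1).resolve_left (neg_ne_zero.2 (mul_ne_zero h20 (pow_ne_zero _ hf0)))

end H29AB
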