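import Pool.Agent.H29.AB.Iface
import Pool.Agent.H72.AB.Master
import Pool.Agent.H88.AB.RealQ
import Pool.Agent.H55.AB.Fam

/-!
# Project AB, module Sym (M1): the symmetry outside a null set
-/

open Polynomial NumberField H9FC H9AB IsDedekindDomain

namespace H29AB

universe u v

/-- the symmetry with the `S_3`-stable families from the root multiplicities -/
theorem symF_of_mult {F K : Type*} [Field F] [NumberField F] [Field K] [NumberField K]
    [Algebra F K] {p : ℕ} [Fact p.Prime]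
    (H : ∀ a b c : 𝓞 K, FSol K p a b c → CopAt K p a b c →
      ∀ (Ω : Type) [Field Ω] [IsAlgClosed Ω] [CharP Ω p] (w : 𝓞 F →+* Ω) (x : Ω), x ≠ 0 → x ≠ 1 →
      rootMultiplicity x ((nfR F K a b).map w) = rootMultiplicity x⁻¹ ((nfR F K a b).map w) ∧
      rootMultiplicity x ((nfR F K a b).map w) = rootMultiplicity (1 - x) ((nfR F K a b).map w)) :
    SymF F K p := by
  intro a b c hF hC Ω _ _ _ w ψ hψ
  have hs : ∀ i, ψ i a + ψ i b + ψ i c = 0 := fun i => fsol_hom hF (ψ i)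
  have h0 : ∀ i, ψ i a ≠ 0 ∨ ψ i b ≠ 0 := fun i =>
    H72AB.not_both (ψ i) (hs i) (H72AB.cop_hom' hC (ψ i))
  have h1 := H55AB.s3_of_mult (fun i => ψ i a) (fun i => ψ i b) h0
    (fun x hx0 hx1 => by
      rw [← hψ.2 a b]
      exact (H a b c hF hC Ω w x hx0 hx1).1.symm)
    (fun x hx0 hx1 => by
      rw [← hψ.2 a b]
      exact (H a b c hF hC Ω w x hx0 hx1).2.symm)
  have key : ∀ (P Q : Fin (Module.finrank F K) → Prop), (∀ i, P i ↔ Q i) →
      H85FD.S3St (fun i : {i // P i} => -(ψ i.1 b) / ψ i.1 a) →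
      H85FD.S3St (fun i : {i // Q i} => -(ψ i.1 b) / ψ i.1 a) := by
    intro P Q hPQ h
    obtain rfl : P = Q := funext fun i => propext (hPQ i)
    exact h
  refine key _ _ (fun i => ?_) h1
  have h2 := hs i
  constructor
  · rintro ⟨h3, h4, h5⟩
    refine ⟨h3, h4, fun h6 => h5 ?_⟩
    rw [h6, add_zero] at h2
    exact h2
  · rintro ⟨h3, h4, h5⟩
    refine ⟨h3, h4, fun h6 => h5 ?_⟩
    rw [h6, zero_add] at h2
    exact h2

/-- **M1** -/
theorem null_sym (f n : ℕ) (hf : 0 < f) :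
    ∃ B : ℕ → Prop, Pool.Agent.H71.FD.Null B ∧
      ∀ p : ℕ, p.Prime → ¬ B p → (2 * (f.totient * n) + 5 ≤ p ∧
        ∀ (F : Type u) (K : Type v) [Field F] [NumberField F] [Field K] [NumberField K] [Algebra F K],
          RealAb f F → Module.finrank F K = n → SymF F K p) := by
  obtain ⟨B, hB, h⟩ := H72AB.master_real.{u, v} (f * 2) (by omega) n
  refine ⟨fun p => B p ∨ p ≤ 2 * (f.totient * n) + 5, hB.or
    (Pool.Agent.H71.FD.Null_of_bounded _ fun _ _ h => h), fun p hp hBp => ?_⟩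
  rw [not_or, not_le] at hBp
  refine ⟨hBp.2.le, fun F K _ _ _ _ _ hF hn => ?_⟩
  have hfact : Fact p.Prime := ⟨hp⟩
  have hfne : NeZero f := ⟨hf.ne'⟩
  have hfne2 : NeZero (f * 2) := ⟨by omega⟩
  have hfq : NeZero ((f : ℕ) : ℚ) := ⟨Nat.cast_ne_zero.2 hf.ne'⟩
  have hfq2 : NeZero (((f * 2 : ℕ) : ℕ) : ℚ) := ⟨Nat.cast_ne_zero.2 (by omega)⟩
  have hc1 : IsCyclotomicExtension {f} ℚ (CyclotomicField f ℚ) :=
    CyclotomicField.isCyclotomicExtension f ℚ
  have hc2 : IsCyclotomicExtension {f * 2} ℚ (CyclotomicField (f * 2) ℚ) :=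
    CyclotomicField.isCyclotomicExtension (f * 2) ℚ
  obtain ⟨htot, ⟨ι⟩⟩ := hF
  obtain ⟨φ⟩ := exists_emb f 2 (CyclotomicField f ℚ) (CyclotomicField (f * 2) ℚ)
  refine symF_of_mult fun a b c hF hC Ω _ _ _ w x hx0 hx1 => ?_
  exact h p hp hBp.1 F K ⟨(φ : CyclotomicField f ℚ →+* CyclotomicField (f * 2) ℚ).comp ι⟩
    (fun χ => H88AB.conj_of_tot χ) hn.le a b c hF hC Ω w x hx0 hx1

end H29AB
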